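import Mathlib

set_option autoImplicit false

/-! # Project LK: linear independence over a subfield and over the rationals -/

namespace Pool.Agent.Q253.LK

open Set

/-- linear independence over `K` in terms of linear independence over `ℚ` -/
theorem LIK {ι : Type} (K : Subfield ℝ) (g : ι → ℝ) : LinearIndependent K g ↔
    ∀ (m : ℕ) (θ : Fin m → ℝ), (∀ j, θ j ∈ K) → (∀ j, 0 < θ j) → LinearIndependent ℚ θ →
      LinearIndependent ℚ (fun p : Fin m × ι => θ p.1 * g p.2) := by
  classical
  constructor
  · intro hg m θ hK _ hθ
    set θ' : Fin m → K := fun j => ⟨θ j, hK j⟩ with hθ'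
    have h1 : LinearIndependent ℚ θ' := by
      have h2 : LinearIndependent ℚ ((Algebra.linearMap K ℝ).restrictScalars ℚ ∘ θ') := by
        have e : ((Algebra.linearMap K ℝ).restrictScalars ℚ ∘ θ') = θ := by
          funext j
          rfl
        rw [e]
        exact hθ
      exact LinearIndependent.of_comp _ h2
    exact linearIndependent_smul h1 hg
  · intro h
    rw [linearIndependent_iff']
    intro s c hc i hi
    by_contra hne
    -- a basis with positive elements
    set b₀ := Module.Basis.ofVectorSpace ℚ K with hb₀
    set w : Module.Basis.ofVectorSpaceIndex ℚ K → ℚˣ := fun x => if 0 < ((b₀ x : K) : ℝ) then 1 else -1 with hw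
    set b := b₀.unitsSMul w with hb
    have hbpos : ∀ x, 0 < ((b x : K) : ℝ) := by
      intro x
      rw [hb, Module.Basis.unitsSMul_apply, hw]
      have hne0 : ((b₀ x : K) : ℝ) ≠ 0 := by
        intro h0
        exact b₀.ne_zero x (Subtype.ext h0)
      by_cases h0 : 0 < ((b₀ x : K) : ℝ)
      · simp only [if_pos h0, one_smul]
        exact h0
      · simp only [if_neg h0]
        have h1 : ((b₀ x : K) : ℝ) < 0 := lt_of_le_of_ne (not_lt.1 h0) hne0
        have e : (((-1 : ℚˣ) • b₀ x : K) : ℝ) = -((b₀ x : K) : ℝ) := by
          rw [Units.neg_smul, one_smul]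
          rfl
        rw [e]
        linarith
    -- the basis elements which occur
    set Θ : Finset (Module.Basis.ofVectorSpaceIndex ℚ K) := s.biUnion fun i => (b.repr (c i)).support with hΘ
    set e := Θ.equivFin with he
    set θ : Fin Θ.card → ℝ := fun j => ((b (e.symm j) : K) : ℝ) with hθ
    have h1 : LinearIndependent ℚ θ := by
      have h2 : LinearIndependent ℚ (fun j : Fin Θ.card => b (e.symm j)) :=
        b.linearIndependent.comp (fun j => ((e.symm j : Θ) : Module.Basis.ofVectorSpaceIndex ℚ K))
          (Subtype.val_injective.comp e.symm.injective)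
      have h3 := h2.map' ((Algebra.linearMap K ℝ).restrictScalars ℚ) (LinearMap.ker_eq_bot.2 (by
        intro x y hxy
        exact Subtype.ext hxy))
      exact h3
    have h2 := h _ θ (fun j => (b (e.symm j)).2) (fun j => hbpos _) h1
    rw [linearIndependent_iff'] at h2
    have h3 := h2 (Finset.univ ×ˢ s) (fun p => b.repr (c p.2) (e.symm p.1)) (by
      rw [Finset.sum_product_right]
      rw [← hc]
      refine Finset.sum_congr rfl fun i hi => ?_
      have h4 : (∑ j : Fin Θ.card, (b.repr (c i) (e.symm j)) • b (e.symm j) : K) = c i := by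
        rw [Equiv.sum_comp e.symm (fun x : Θ => (b.repr (c i) x) • b x)]
        rw [Finset.sum_coe_sort Θ (fun x => (b.repr (c i) x) • b x)]
        conv_rhs => rw [← b.linearCombination_repr (c i)]
        rw [Finsupp.linearCombination_apply, Finsupp.sum]
        symm
        refine Finset.sum_subset (fun x hx => ?_) fun x _ hx => ?_
        · exact Finset.mem_biUnion.2 ⟨i, hi, hx⟩
        · rw [Finsupp.notMem_support_iff.1 hx, zero_smul]
      have h5 : ((∑ j : Fin Θ.card, (b.repr (c i) (e.symm j)) • b (e.symm j) : K) : ℝ) * g i = (c i : ℝ) * g i := by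
        rw [h4]
      have h6 : c i • g i = (c i : ℝ) * g i := rfl
      rw [h6, ← h5]
      push_cast
      rw [Finset.sum_mul]
      refine Finset.sum_congr rfl fun j _ => ?_
      simp only [hθ]
      rw [smul_mul_assoc])
    apply hne
    have h7 : b.repr (c i) = 0 := by
      ext x
      rw [Finsupp.zero_apply]
      by_cases hx : x ∈ Θ
      · have h8 := h3 (e ⟨x, hx⟩, i) (Finset.mem_product.2 ⟨Finset.mem_univ _, hi⟩)
        simpa using h8
      · by_contra h9
        exact hx (Finset.mem_biUnion.2 ⟨i, hi, Finsupp.mem_support_iff.2 h9⟩)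
    exact (LinearEquiv.map_eq_zero_iff b.repr).1 h7

end Pool.Agent.Q253.LK
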