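import Pool.Agent.Q253.LK.K1
import Pool.Agent.Q253.LM.F2

set_option autoImplicit false

/-! # Project LK: mean values at dilated times -/

namespace Pool.Agent.Q253.LK

open MeasureTheory Filter Topology Set Complex
open Pool.Agent.Q253.LQ (I0)

/-- the exponential mean at dilated times -/
noncomputable def MD (F : ℝ → ℝ) (lam : ℝ) {m : ℕ} (θ : Fin m → ℝ) (U : ℝ) : ℝ :=
  (1 / U) * ∫ u in (0 : ℝ)..U, Real.exp (lam * ∑ j, F (θ j * u))

section
variable {ι : Type} {g c : ι → ℝ} {lam : ℝ} {r F : ℝ → ℝ}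

/-- the product -/
noncomputable def PP (c : ι → ℝ) (lam : ℝ) : ℝ := ∏' i, (I0 ((2 * lam * c i : ℝ) : ℂ)).re

lemma log_I0_nonneg (x : ℝ) : 0 ≤ Real.log (I0 ((x : ℝ) : ℂ)).re :=
  Real.log_nonneg (Pool.Agent.Q174.LQ.one_le_I0 x)

lemma PP_eq (hI : Summable fun i => Real.log (I0 ((2 * lam * c i : ℝ) : ℂ)).re) :
    PP c lam = Real.exp (∑' i, Real.log (I0 ((2 * lam * c i : ℝ) : ℂ)).re) := by
  unfold PP
  exact (Real.rexp_tsum_eq_tprod (fun i => lt_of_lt_of_le one_pos (Pool.Agent.Q174.LQ.one_le_I0 _)) hI).symm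

lemma PP_pow (m : ℕ) (hI : Summable fun i => Real.log (I0 ((2 * lam * c i : ℝ) : ℂ)).re) :
    ∏' p : Fin m × ι, (I0 ((2 * lam * c p.2 : ℝ) : ℂ)).re = PP c lam ^ m := by
  have hI2 : Summable fun p : Fin m × ι => Real.log (I0 ((2 * lam * c p.2 : ℝ) : ℂ)).re := by
    rw [summable_prod_of_nonneg fun p => log_I0_nonneg _]
    exact ⟨fun _ => hI, (hasSum_fintype _).summable⟩
  rw [← Real.rexp_tsum_eq_tprod (fun p => lt_of_lt_of_le one_pos (Pool.Agent.Q174.LQ.one_le_I0 _)) hI2, PP_eq hI,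
    hI2.tsum_prod, tsum_fintype]
  simp only
  rw [Finset.sum_const, Finset.card_univ, Fintype.card_fin, ← Real.exp_nat_mul, nsmul_eq_mul]

theorem dil (hg : ∀ i, 0 < g i) (hc : ∀ i, 0 < c i) (hs : Summable c) (hlam : 0 < lam) (hr : Measurable r)
    (hB : ∃ B : ℝ, ∀ u, |r u| ≤ B) (hr0 : Tendsto r atTop (𝓝 0))
    (hI : Summable fun i => Real.log (I0 ((2 * lam * c i : ℝ) : ℂ)).re)
    (hF : ∀ u : ℝ, 0 ≤ u → F u = ∑' i, 2 * c i * Real.cos (g i * u) + r u) {m : ℕ} (θ : Fin m → ℝ)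
    (hθ : ∀ j, 0 < θ j) :
    (∀ ε : ℝ, 0 < ε → ∀ᶠ U : ℝ in atTop, PP c lam ^ m - ε ≤ MD F lam θ U) ∧
    (¬ LinearIndependent ℚ (fun p : Fin m × ι => θ p.1 * g p.2) →
      ∃ M : ℝ, PP c lam ^ m < M ∧ ∀ ε : ℝ, 0 < ε → ∀ᶠ U : ℝ in atTop, M - ε ≤ MD F lam θ U) ∧
    (LinearIndependent ℚ (fun p : Fin m × ι => θ p.1 * g p.2) → Tendsto (MD F lam θ) atTop (𝓝 (PP c lam ^ m))) := by
  obtain ⟨B, hB⟩ := hB
  have hs2 : Summable fun p : Fin m × ι => c p.2 := by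
    rw [summable_prod_of_nonneg fun p => (hc p.2).le]
    exact ⟨fun _ => hs, (hasSum_fintype _).summable⟩
  set r' : ℝ → ℝ := fun u => ∑ j, r (θ j * u) with hr'
  have hr'm : Measurable r' := by
    rw [hr']
    exact Finset.measurable_fun_sum _ fun j _ => hr.comp (measurable_const.mul measurable_id)
  have hr'B : ∃ B' : ℝ, ∀ u, |r' u| ≤ B' := ⟨m * B, fun u => by
    rw [hr']
    refine (Finset.abs_sum_le_sum_abs _ _).trans ?_
    calc ∑ j, |r (θ j * u)| ≤ ∑ _j : Fin m, B := Finset.sum_le_sum fun j _ => hB _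
      _ = m * B := by rw [Finset.sum_const, Finset.card_univ, Fintype.card_fin, nsmul_eq_mul]⟩
  have hr'0 : Tendsto r' atTop (𝓝 0) := by
    have h1 : ∀ j : Fin m, Tendsto (fun u => r (θ j * u)) atTop (𝓝 0) := fun j =>
      hr0.comp (tendsto_id.const_mul_atTop (hθ j))
    have h2 := tendsto_finsetSum (Finset.univ : Finset (Fin m)) fun j _ => h1 j
    simpa using h2
  obtain ⟨⟨M, hm1, hm2, hm3, hm4⟩, hT⟩ := Pool.Agent.Q151.LQ.t_MV (Fin m × ι) (fun p => θ p.1 * g p.2) (fun p => c p.2)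
    0 lam r' (fun p => mul_pos (hθ _) (hg _)) (fun p => hc _) hs2 hlam hr'm hr'B hr'0
  have hcosb : ∀ (j : Fin m) (u : ℝ), Summable fun i => 2 * c i * Real.cos (g i * (θ j * u)) := by
    intro j u
    refine Summable.of_norm_bounded (hs.mul_left 2) fun i => ?_
    rw [norm_mul, Real.norm_of_nonneg (by have := hc i; positivity)]
    have h1 := Real.abs_cos_le_one (g i * (θ j * u))
    rw [Real.norm_eq_abs]
    have h2 := hc i
    nlinarith
  have hsum : ∀ u : ℝ, 0 ≤ u → ∑ j, F (θ j * u) =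
      ∑' p : Fin m × ι, 2 * c p.2 * Real.cos (θ p.1 * g p.2 * u) + r' u := by
    intro u hu
    have h1 : Summable fun p : Fin m × ι => 2 * c p.2 * Real.cos (θ p.1 * g p.2 * u) := by
      refine Summable.of_norm_bounded (hs2.mul_left 2) fun p => ?_
      rw [norm_mul, Real.norm_of_nonneg (by have := hc p.2; positivity)]
      have h1 := Real.abs_cos_le_one (θ p.1 * g p.2 * u)
      rw [Real.norm_eq_abs]
      have h2 := hc p.2
      nlinarith
    rw [h1.tsum_prod, tsum_fintype, hr', ← Finset.sum_add_distrib]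
    refine Finset.sum_congr rfl fun j _ => ?_
    rw [hF _ (mul_nonneg (hθ j).le hu)]
    congr 1
    refine tsum_congr fun i => ?_
    congr 2
    ring
  have hcongr : ∀ U : ℝ, 0 ≤ U → (1 / U) * ∫ u in (0 : ℝ)..U, Real.exp (lam * (0 +
      ∑' p : Fin m × ι, 2 * c p.2 * Real.cos (θ p.1 * g p.2 * u) + r' u)) = MD F lam θ U := by
    intro U hU
    unfold MD
    congr 1
    refine intervalIntegral.integral_congr fun u hu => ?_
    rw [uIcc_of_le hU] at hu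
    rw [hsum u hu.1, zero_add]
  have hP : Real.exp (lam * 0) * (∏' p : Fin m × ι, (I0 ((2 * lam * c p.2 : ℝ) : ℂ)).re) = PP c lam ^ m := by
    rw [mul_zero, Real.exp_zero, one_mul, PP_pow m hI]
  rw [hP] at hm1 hm2 hm3 hT
  refine ⟨fun ε hε => ?_, fun h => ⟨M, hm2 h, fun ε hε => ?_⟩, fun h => ?_⟩
  · filter_upwards [hm4 ε hε, eventually_ge_atTop 0] with U hU hU0
    rw [hcongr U hU0] at hU
    linarith
  · filter_upwards [hm4 ε hε, eventually_ge_atTop 0] with U hU hU0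
    rw [hcongr U hU0] at hU
    exact hU
  · refine (hT h).congr' ?_
    filter_upwards [eventually_ge_atTop 0] with U hU0
    exact hcongr U hU0

/-- linear independence over `K` by inequalities -/
theorem main_abs (K : Subfield ℝ) (hg : ∀ i, 0 < g i) (hc : ∀ i, 0 < c i) (hs : Summable c) (hlam : 0 < lam)
    (hr : Measurable r) (hB : ∃ B : ℝ, ∀ u, |r u| ≤ B) (hr0 : Tendsto r atTop (𝓝 0))
    (hI : Summable fun i => Real.log (I0 ((2 * lam * c i : ℝ) : ℂ)).re)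
    (hF : ∀ u : ℝ, 0 ≤ u → F u = ∑' i, 2 * c i * Real.cos (g i * u) + r u) :
    (LinearIndependent K g ↔ ∀ (m : ℕ) (θ : Fin m → ℝ), (∀ j, θ j ∈ K) → (∀ j, 0 < θ j) → LinearIndependent ℚ θ →
      ∀ ε : ℝ, 0 < ε → ∀ᶠ U : ℝ in atTop, MD F lam θ U ≤ PP c lam ^ m + ε) ∧
    (LinearIndependent K g ↔ ∀ (m : ℕ) (θ : Fin m → ℝ), (∀ j, θ j ∈ K) → (∀ j, 0 < θ j) → LinearIndependent ℚ θ →
      Tendsto (MD F lam θ) atTop (𝓝 (PP c lam ^ m))) := by
  have hA : LinearIndependent K g → ∀ (m : ℕ) (θ : Fin m → ℝ), (∀ j, θ j ∈ K) → (∀ j, 0 < θ j) → LinearIndependent ℚ θ →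
      Tendsto (MD F lam θ) atTop (𝓝 (PP c lam ^ m)) := fun h m θ h1 h2 h3 =>
    (dil hg hc hs hlam hr hB hr0 hI hF θ h2).2.2 ((LIK K g).1 h m θ h1 h2 h3)
  have hC : (∀ (m : ℕ) (θ : Fin m → ℝ), (∀ j, θ j ∈ K) → (∀ j, 0 < θ j) → LinearIndependent ℚ θ →
      ∀ ε : ℝ, 0 < ε → ∀ᶠ U : ℝ in atTop, MD F lam θ U ≤ PP c lam ^ m + ε) → LinearIndependent K g := by
    intro h
    refine (LIK K g).2 fun m θ h1 h2 h3 => ?_
    by_contra hcon
    obtain ⟨M, hM, h4⟩ := (dil hg hc hs hlam hr hB hr0 hI hF θ h2).2.1 hcon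
    have hd : 0 < (M - PP c lam ^ m) / 3 := by linarith
    obtain ⟨U, hU1, hU2⟩ := ((h m θ h1 h2 h3 _ hd).and (h4 _ hd)).exists
    linarith
  have hBd : (∀ (m : ℕ) (θ : Fin m → ℝ), (∀ j, θ j ∈ K) → (∀ j, 0 < θ j) → LinearIndependent ℚ θ →
      Tendsto (MD F lam θ) atTop (𝓝 (PP c lam ^ m))) →
      ∀ (m : ℕ) (θ : Fin m → ℝ), (∀ j, θ j ∈ K) → (∀ j, 0 < θ j) → LinearIndependent ℚ θ →
      ∀ ε : ℝ, 0 < ε → ∀ᶠ U : ℝ in atTop, MD F lam θ U ≤ PP c lam ^ m + ε := by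
    intro h m θ h1 h2 h3 ε hε
    filter_upwards [(h m θ h1 h2 h3).eventually (gt_mem_nhds (show PP c lam ^ m < PP c lam ^ m + ε by linarith))]
      with U hU using le_of_lt hU
  exact ⟨⟨fun h => hBd (hA h), hC⟩, ⟨hA, fun h => hC (hBd h)⟩⟩

end

end Pool.Agent.Q253.LK
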