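import Pool.Agent.Q253.LK.K2

set_option autoImplicit false

/-! # Project LK: the ordinates of the zeros of zeta -/

namespace Pool.Agent.Q253.LK

open MeasureTheory Filter Topology Set Complex
open Pool.Agent.Q253.LQ
open Pool.Agent.Q253.LM (mt_one mt_one_zero mt_one_ne mt_one_le grh_one)
open Pool.Agent.Q253.CP (half_re1 half_im1 half_ne1 ordNat_iff strip_line)

/-- zeros off the real axis lie in the strip (helper270's `Q270LD.strip_of_zero`) -/
lemma strip_of_zero {s : ℂ} (h0 : riemannZeta s = 0) (ht : s.im ≠ 0) : 0 < s.re ∧ s.re < 1 := by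
  have hs0 : s ≠ 0 := by
    rintro rfl
    exact ht zero_im
  have hΛ : completedRiemannZeta s = 0 := by
    rw [riemannZeta_def_of_ne_zero hs0, div_eq_zero_iff] at h0
    rcases h0 with h | h
    · exact h
    · rw [Gammaℝ_eq_zero_iff] at h
      obtain ⟨n, hn⟩ := h
      exact absurd (by rw [hn]; simp) ht
  have h1 : s.re < 1 := by
    by_contra hc
    exact riemannZeta_ne_zero_of_one_le_re (not_lt.1 hc) h0
  refine ⟨?_, h1⟩
  by_contra hc
  have hs1 : (1 : ℂ) - s ≠ 0 := by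
    intro h
    have := congrArg Complex.re h
    simp at this
    linarith
  have h2 : completedRiemannZeta (1 - s) = 0 := by rw [completedRiemannZeta_one_sub, hΛ]
  have h3 : riemannZeta (1 - s) = 0 := by rw [riemannZeta_def_of_ne_zero hs1, h2, zero_div]
  exact riemannZeta_ne_zero_of_one_le_re (s := 1 - s) (by simp; linarith) h3

lemma zero_half (hG : GRHq 1) {s : ℂ} (h0 : riemannZeta s = 0) (ht : s.im ≠ 0) : s = 1 / 2 + (s.im : ℂ) * I := by
  obtain ⟨h1, h2⟩ := strip_of_zero h0 ht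
  have h3 := strip_line (hG 1) h1 h2 (by rwa [DirichletCharacter.LFunction_modOne_eq])
  apply Complex.ext
  · rw [half_re1, h3]
  · rw [half_im1]

/-- the set of the ordinates -/
def Gam : Set ℝ := {γ : ℝ | 0 < γ ∧ ∃ β : ℝ, riemannZeta ((β : ℂ) + (γ : ℂ) * I) = 0}

/-- all zeros with positive ordinate are simple -/
def Smp : Prop := ∀ s : ℂ, 0 < s.im → riemannZeta s = 0 → deriv riemannZeta s ≠ 0

lemma Gam_iff (hG : GRHq 1) (γ : ℝ) : γ ∈ Gam ↔ 0 < γ ∧ mt 1 γ ≠ 0 := by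
  unfold Gam
  rw [mt_one_ne]
  constructor
  · rintro ⟨h1, β, h2⟩
    have him : ((β : ℂ) + (γ : ℂ) * I).im = γ := by simp
    have h3 := zero_half hG h2 (by rw [him]; exact h1.ne')
    rw [him] at h3
    rw [h3] at h2
    exact ⟨h1, h2⟩
  · rintro ⟨h1, h2⟩
    refine ⟨h1, 1 / 2, ?_⟩
    push_cast
    exact h2

lemma Smp_iff (hG : GRHq 1) : Smp ↔ ∀ γ : ℝ, 0 < γ → mt 1 γ ≤ 1 := by
  constructor
  · intro h γ hγ
    by_cases hz : riemannZeta (1 / 2 + (γ : ℂ) * I) = 0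
    · exact (mt_one_le γ hz).2 (h _ (by rw [half_im1]; exact hγ) hz)
    · have : mt 1 γ = 0 := by
        by_contra h2
        exact hz ((mt_one_ne γ).1 h2)
      omega
  · intro h s hs hz
    have h1 := zero_half hG hz hs.ne'
    rw [h1]
    exact (mt_one_le s.im (by rw [← h1]; exact hz)).1 (h _ hs)

/-- the ordinates with and without multiplicity -/
lemma LI_gi (hG : GRHq 1) (K : Subfield ℝ) : LinearIndependent K (gi : Idx 1 → ℝ) ↔
    (Smp ∧ LinearIndependent K (fun γ : Gam => (γ : ℝ))) := by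
  constructor
  · intro h
    have hS : ∀ γ : ℝ, 0 < γ → mt 1 γ ≤ 1 := by
      intro γ hγ
      by_contra hcon
      have h2' : 1 < mt 1 γ := not_le.1 hcon
      have h1 := h.injective (a₁ := (⟨⟨γ, hγ⟩, ⟨0, lt_trans zero_lt_one h2'⟩⟩ : Idx 1)) (a₂ := ⟨⟨γ, hγ⟩, ⟨1, h2'⟩⟩) rfl
      have h2 := congrArg (fun i : Idx 1 => (i.2 : ℕ)) h1
      simp at h2
    refine ⟨(Smp_iff hG).2 hS, ?_⟩
    have hm : ∀ γ : Gam, 0 < (γ : ℝ) ∧ mt 1 γ ≠ 0 := fun γ => (Gam_iff hG γ).1 γ.2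
    have h2 := h.comp (fun γ : Gam => (⟨⟨γ, (hm γ).1⟩, ⟨0, Nat.pos_of_ne_zero (hm γ).2⟩⟩ : Idx 1)) (by
      intro γ γ' hγ
      have h3 := congrArg (fun i : Idx 1 => (i.1 : ℝ)) hγ
      exact Subtype.ext h3)
    exact h2
  · rintro ⟨hS, h⟩
    have hS' := (Smp_iff hG).1 hS
    have h2 := h.comp (fun i : Idx 1 => (⟨gi i, (Gam_iff hG _).2 ⟨gi_pos i, Nat.pos_iff_ne_zero.1 i.2.pos⟩⟩ : Gam)) (by
      intro i j hij
      have h1 : gi i = gi j := congrArg (fun γ : Gam => (γ : ℝ)) hij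
      obtain ⟨γ, k⟩ := i
      obtain ⟨γ', k'⟩ := j
      have h2 : γ = γ' := Subtype.ext h1
      subst h2
      have h3 := hS' γ.1 γ.2
      have h4 := k.2
      have h5 := k'.2
      have h6 : k = k' := by
        apply Fin.ext
        omega
      rw [h6])
    exact h2

/-- with `1` added -/
noncomputable def g1 (x : Option (Idx 1)) : ℝ := x.elim 1 gi

noncomputable def c1 (x : Option (Idx 1)) : ℝ := x.elim (1 / 2) ci

lemma LI_g1 (hG : GRHq 1) (K : Subfield ℝ) : LinearIndependent K g1 ↔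
    (Smp ∧ LinearIndependent K (fun x : Option Gam => x.elim 1 (fun γ => (γ : ℝ)))) := by
  constructor
  · intro h
    have h0 : LinearIndependent K (gi : Idx 1 → ℝ) := h.comp some (Option.some_injective _)
    obtain ⟨hS, -⟩ := (LI_gi hG K).1 h0
    refine ⟨hS, ?_⟩
    have hm : ∀ γ : Gam, 0 < (γ : ℝ) ∧ mt 1 γ ≠ 0 := fun γ => (Gam_iff hG γ).1 γ.2
    have hinj : Function.Injective (fun γ : Gam => (⟨⟨γ, (hm γ).1⟩, ⟨0, Nat.pos_of_ne_zero (hm γ).2⟩⟩ : Idx 1)) := by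
      intro γ γ' hγ
      have h3 := congrArg (fun i : Idx 1 => (i.1 : ℝ)) hγ
      exact Subtype.ext h3
    have h2 := h.comp (Option.map fun γ : Gam => (⟨⟨γ, (hm γ).1⟩, ⟨0, Nat.pos_of_ne_zero (hm γ).2⟩⟩ : Idx 1))
      (Option.map_injective hinj)
    have e : g1 ∘ (Option.map fun γ : Gam => (⟨⟨γ, (hm γ).1⟩, ⟨0, Nat.pos_of_ne_zero (hm γ).2⟩⟩ : Idx 1)) =
        fun x : Option Gam => x.elim 1 (fun γ => (γ : ℝ)) := by
      funext x
      cases x <;> rfl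
    rw [e] at h2
    exact h2
  · rintro ⟨hS, h⟩
    have hS' := (Smp_iff hG).1 hS
    have hinj : Function.Injective (fun i : Idx 1 =>
        (⟨gi i, (Gam_iff hG _).2 ⟨gi_pos i, Nat.pos_iff_ne_zero.1 i.2.pos⟩⟩ : Gam)) := by
      intro i j hij
      have h1 : gi i = gi j := congrArg (fun γ : Gam => (γ : ℝ)) hij
      obtain ⟨γ, k⟩ := i
      obtain ⟨γ', k'⟩ := j
      have h2 : γ = γ' := Subtype.ext h1
      subst h2
      have h3 := hS' γ.1 γ.2
      have h4 := k.2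
      have h5 := k'.2
      have h6 : k = k' := by
        apply Fin.ext
        omega
      rw [h6]
    have h2 := h.comp (Option.map fun i : Idx 1 =>
      (⟨gi i, (Gam_iff hG _).2 ⟨gi_pos i, Nat.pos_iff_ne_zero.1 i.2.pos⟩⟩ : Gam)) (Option.map_injective hinj)
    have e : (fun x : Option Gam => x.elim 1 (fun γ => (γ : ℝ))) ∘ (Option.map fun i : Idx 1 =>
      (⟨gi i, (Gam_iff hG _).2 ⟨gi_pos i, Nat.pos_iff_ne_zero.1 i.2.pos⟩⟩ : Gam)) = g1 := by
      funext x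
      cases x <;> rfl
    rw [e] at h2
    exact h2

/-! ## the constants -/

lemma hasSum_opt {α : Type} {f : Option α → ℝ} {a : ℝ} (h : HasSum (fun i => f (some i)) a) : HasSum f (f none + a) := by
  have h1 : HasSum (fun x : Option α => if x = none then f none else 0) (f none) := hasSum_ite_eq none (f none)
  have h2 : HasSum (fun x : Option α => if x = none then 0 else f x) a := by
    rw [← (Option.some_injective α).hasSum_iff]
    · simpa [Function.comp_def] using h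
    · intro x hx
      cases x with
      | none => simp
      | some i => exact absurd ⟨i, rfl⟩ hx
  have h3 := h1.add h2
  have e : (fun x : Option α => (if x = none then f none else 0) + (if x = none then 0 else f x)) = f := by
    funext x
    cases x <;> simp
  rw [e] at h3
  exact h3

lemma idx_I (hG : GRHq 1) {lam : ℝ} (h0 : 0 < lam) (h1 : lam ≤ 1 / 8) :
    Summable fun i : Idx 1 => Real.log (I0 ((2 * lam * ci i : ℝ) : ℂ)).re := by
  have hsm := mt_sm hG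
  obtain ⟨hs, -⟩ := Pool.Agent.Q174.LQ.t_CT (fun γ => (mt 1 γ : ℝ)) (Hq 1) lam (fun γ => Nat.cast_nonneg _) hsm
    (fun t ht => Hq_eq hG ht) h0 h1
  set ℓ : ℝ → ℝ := fun γ => Real.log (I0 ((4 * lam / (1 + γ ^ 2) : ℝ) : ℂ)).re with hℓ
  have hℓ0 : ∀ γ, 0 ≤ ℓ γ := fun γ => Real.log_nonneg (Pool.Agent.Q174.LQ.one_le_I0 _)
  have hs' : Summable fun γ : ℝ => (mt 1 γ : ℝ) * |ℓ γ| := by
    refine hs.congr fun γ => ?_
    rw [abs_of_nonneg (hℓ0 γ)]
  have h4 : ∀ i : Idx 1, ℓ (gi i) = Real.log (I0 ((2 * lam * ci i : ℝ) : ℂ)).re := by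
    intro i
    rw [hℓ]
    simp only
    unfold ci
    congr 4
    ring
  exact (idx_sm hs').congr h4

lemma PP_ci (hG : GRHq 1) {lam : ℝ} (h0 : 0 < lam) (h1 : lam ≤ 1 / 8) : PP (ci : Idx 1 → ℝ) lam = Rq 1 lam :=
  ((Rq_le hG h0 h1).2.2 mt_one_zero).symm

lemma c1_I (hG : GRHq 1) {lam : ℝ} (h0 : 0 < lam) (h1 : lam ≤ 1 / 8) :
    Summable fun i : Option (Idx 1) => Real.log (I0 ((2 * lam * c1 i : ℝ) : ℂ)).re :=
  (hasSum_opt (f := fun i : Option (Idx 1) => Real.log (I0 ((2 * lam * c1 i : ℝ) : ℂ)).re) (idx_I hG h0 h1).hasSum).summable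

lemma PP_c1 (hG : GRHq 1) {lam : ℝ} (h0 : 0 < lam) (h1 : lam ≤ 1 / 8) :
    PP c1 lam = (I0 (lam : ℂ)).re * Rq 1 lam := by
  rw [PP_eq (c1_I hG h0 h1), (hasSum_opt (f := fun i : Option (Idx 1) => Real.log (I0 ((2 * lam * c1 i : ℝ) : ℂ)).re)
    (idx_I hG h0 h1).hasSum).tsum_eq, Real.exp_add, ← PP_ci hG h0 h1, PP_eq (idx_I hG h0 h1)]
  congr 1
  have e : 2 * lam * c1 none = lam := by
    unfold c1
    simp
    ring
  rw [e, Real.exp_log (lt_of_lt_of_le one_pos (Pool.Agent.Q174.LQ.one_le_I0 _))]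

/-! ## the criteria -/

theorem crit0 (K : Subfield ℝ) {lam : ℝ} (h0 : 0 < lam) (h1 : lam ≤ 1 / 8) :
    ((GRHq 1 ∧ Smp ∧ LinearIndependent K (fun γ : Gam => (γ : ℝ))) ↔
      ∀ (m : ℕ) (θ : Fin m → ℝ), (∀ j, θ j ∈ K) → (∀ j, 0 < θ j) → LinearIndependent ℚ θ →
        ∀ ε : ℝ, 0 < ε → ∀ᶠ U : ℝ in atTop, MD (fun u => -EE 1 u) lam θ U ≤ Rq 1 lam ^ m + ε) ∧
    ((GRHq 1 ∧ Smp ∧ LinearIndependent K (fun γ : Gam => (γ : ℝ))) ↔
      ∀ (m : ℕ) (θ : Fin m → ℝ), (∀ j, θ j ∈ K) → (∀ j, 0 < θ j) → LinearIndependent ℚ θ →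
        Tendsto (MD (fun u => -EE 1 u) lam θ) atTop (𝓝 (Rq 1 lam ^ m))) ∧
    (GRHq 1 → ∀ (m : ℕ) (θ : Fin m → ℝ), (∀ j, 0 < θ j) →
      ∀ ε : ℝ, 0 < ε → ∀ᶠ U : ℝ in atTop, Rq 1 lam ^ m - ε ≤ MD (fun u => -EE 1 u) lam θ U) := by
  have key : GRHq 1 → ∃ r : ℝ → ℝ, Measurable r ∧ (∃ B : ℝ, ∀ u, |r u| ≤ B) ∧ Tendsto r atTop (𝓝 0) ∧
      ∀ u : ℝ, 0 ≤ u → -EE 1 u = ∑' i : Idx 1, 2 * ci i * Real.cos (gi i * u) + r u := by
    intro hG
    obtain ⟨r, a, b, c, d⟩ := rem hG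
    refine ⟨r, a, b, c, fun u hu => ?_⟩
    have h2 := d u hu
    rw [mt_one_zero] at h2
    unfold AP at h2
    rw [h2]
    push_cast
    ring
  have hone : LinearIndependent ℚ (![1] : Fin 1 → ℝ) := by
    rw [linearIndependent_unique_iff]
    simp
  have hGof : (∀ (m : ℕ) (θ : Fin m → ℝ), (∀ j, θ j ∈ K) → (∀ j, 0 < θ j) → LinearIndependent ℚ θ →
      ∀ ε : ℝ, 0 < ε → ∀ᶠ U : ℝ in atTop, MD (fun u => -EE 1 u) lam θ U ≤ Rq 1 lam ^ m + ε) → GRHq 1 := by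
    intro h
    have h2 := h 1 ![1] (fun j => by fin_cases j; exact K.one_mem) (fun j => by fin_cases j; exact one_pos) hone 1 one_pos
    refine (grh_iff h0).2 ⟨Rq 1 lam ^ 1 + 1, ?_⟩
    filter_upwards [h2] with U hU
    have e : MM 1 lam U = MD (fun u => -EE 1 u) lam ![1] U := by
      unfold MM MD
      congr 1
      refine intervalIntegral.integral_congr fun u _ => ?_
      simp only [Fin.sum_univ_one, Matrix.cons_val_zero, one_mul]
      congr 1
      ring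
    rw [e]
    exact hU
  have hconv : (∀ (m : ℕ) (θ : Fin m → ℝ), (∀ j, θ j ∈ K) → (∀ j, 0 < θ j) → LinearIndependent ℚ θ →
      Tendsto (MD (fun u => -EE 1 u) lam θ) atTop (𝓝 (Rq 1 lam ^ m))) →
      (∀ (m : ℕ) (θ : Fin m → ℝ), (∀ j, θ j ∈ K) → (∀ j, 0 < θ j) → LinearIndependent ℚ θ →
      ∀ ε : ℝ, 0 < ε → ∀ᶠ U : ℝ in atTop, MD (fun u => -EE 1 u) lam θ U ≤ Rq 1 lam ^ m + ε) := by
    intro h m θ a b c ε hε
    filter_upwards [(h m θ a b c).eventually (gt_mem_nhds (show Rq 1 lam ^ m < Rq 1 lam ^ m + ε by linarith))]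
      with U hU using le_of_lt hU
  have main : GRHq 1 → (LinearIndependent K (gi : Idx 1 → ℝ) ↔ _) ∧ (LinearIndependent K (gi : Idx 1 → ℝ) ↔ _) :=
    fun hG => by
      obtain ⟨r, a, b, c, d⟩ := key hG
      exact main_abs (F := fun u => -EE 1 u) K gi_pos ci_pos (ci_sm hG) h0 a b c (idx_I hG h0 h1) d
  refine ⟨⟨?_, fun h => ?_⟩, ⟨?_, fun h => ?_⟩, ?_⟩
  · rintro ⟨hG, hS, hL⟩
    have h2 := (main hG).1.1 ((LI_gi hG K).2 ⟨hS, hL⟩)
    rw [PP_ci hG h0 h1] at h2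
    exact h2
  · have hG := hGof h
    rw [← PP_ci hG h0 h1] at h
    exact ⟨hG, (LI_gi hG K).1 ((main hG).1.2 h)⟩
  · rintro ⟨hG, hS, hL⟩
    have h2 := (main hG).2.1 ((LI_gi hG K).2 ⟨hS, hL⟩)
    rw [PP_ci hG h0 h1] at h2
    exact h2
  · have hG := hGof (hconv h)
    rw [← PP_ci hG h0 h1] at h
    exact ⟨hG, (LI_gi hG K).1 ((main hG).2.2 h)⟩
  · intro hG m θ hθ
    obtain ⟨r, a, b, c, d⟩ := key hG
    have h2 := (dil (F := fun u => -EE 1 u) gi_pos ci_pos (ci_sm hG) h0 a b c (idx_I hG h0 h1) d θ hθ).1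
    rw [PP_ci hG h0 h1] at h2
    exact h2

theorem crit1 (K : Subfield ℝ) {lam : ℝ} (h0 : 0 < lam) (h1 : lam ≤ 1 / 8) :
    ((GRHq 1 ∧ Smp ∧ LinearIndependent K (fun x : Option Gam => x.elim 1 (fun γ => (γ : ℝ)))) ↔
      ∀ (m : ℕ) (θ : Fin m → ℝ), (∀ j, θ j ∈ K) → (∀ j, 0 < θ j) → LinearIndependent ℚ θ →
        ∀ ε : ℝ, 0 < ε → ∀ᶠ U : ℝ in atTop, MD (fun u => Real.cos u - EE 1 u) lam θ U ≤
          ((I0 (lam : ℂ)).re * Rq 1 lam) ^ m + ε) ∧
    ((GRHq 1 ∧ Smp ∧ LinearIndependent K (fun x : Option Gam => x.elim 1 (fun γ => (γ : ℝ)))) ↔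
      ∀ (m : ℕ) (θ : Fin m → ℝ), (∀ j, θ j ∈ K) → (∀ j, 0 < θ j) → LinearIndependent ℚ θ →
        Tendsto (MD (fun u => Real.cos u - EE 1 u) lam θ) atTop (𝓝 (((I0 (lam : ℂ)).re * Rq 1 lam) ^ m))) ∧
    (GRHq 1 → ∀ (m : ℕ) (θ : Fin m → ℝ), (∀ j, 0 < θ j) →
      ∀ ε : ℝ, 0 < ε → ∀ᶠ U : ℝ in atTop, ((I0 (lam : ℂ)).re * Rq 1 lam) ^ m - ε ≤
        MD (fun u => Real.cos u - EE 1 u) lam θ U) := by
  have hg1 : ∀ x, 0 < g1 x := by
    intro x
    cases x with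
    | none => exact one_pos
    | some i => exact gi_pos i
  have hc1 : ∀ x, 0 < c1 x := by
    intro x
    cases x with
    | none => exact one_half_pos
    | some i => exact ci_pos i
  have hs1 : GRHq 1 → Summable c1 := fun hG => (hasSum_opt (f := c1) (ci_sm hG).hasSum).summable
  have key : GRHq 1 → ∃ r : ℝ → ℝ, Measurable r ∧ (∃ B : ℝ, ∀ u, |r u| ≤ B) ∧ Tendsto r atTop (𝓝 0) ∧
      ∀ u : ℝ, 0 ≤ u → Real.cos u - EE 1 u = ∑' i : Option (Idx 1), 2 * c1 i * Real.cos (g1 i * u) + r u := by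
    intro hG
    obtain ⟨r, a, b, c, d⟩ := rem hG
    refine ⟨r, a, b, c, fun u hu => ?_⟩
    have h2 := d u hu
    rw [mt_one_zero] at h2
    unfold AP at h2
    have h3 : Summable fun i : Idx 1 => 2 * ci i * Real.cos (gi i * u) := by
      refine Summable.of_norm_bounded ((ci_sm hG).mul_left 2) fun i => ?_
      rw [norm_mul, Real.norm_of_nonneg (by have := ci_pos i; positivity)]
      have h1 := Real.abs_cos_le_one (gi i * u)
      rw [Real.norm_eq_abs]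
      have h2 := ci_pos i
      nlinarith
    have h4 := (hasSum_opt (f := fun i : Option (Idx 1) => 2 * c1 i * Real.cos (g1 i * u)) h3.hasSum).tsum_eq
    rw [h4]
    have e : 2 * c1 none * Real.cos (g1 none * u) = Real.cos u := by
      unfold c1 g1
      simp
    rw [e]
    have h5 : -EE 1 u = ∑' i : Idx 1, 2 * ci i * Real.cos (gi i * u) + r u := by
      rw [h2]
      push_cast
      ring
    linear_combination h5
  have hone : LinearIndependent ℚ (![1] : Fin 1 → ℝ) := by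
    rw [linearIndependent_unique_iff]
    simp
  have hcE : Continuous (EE 1) := (Pool.Agent.Q14.LQ.t_CL 1).1
  have hGof : (∀ (m : ℕ) (θ : Fin m → ℝ), (∀ j, θ j ∈ K) → (∀ j, 0 < θ j) → LinearIndependent ℚ θ →
      ∀ ε : ℝ, 0 < ε → ∀ᶠ U : ℝ in atTop, MD (fun u => Real.cos u - EE 1 u) lam θ U ≤
        ((I0 (lam : ℂ)).re * Rq 1 lam) ^ m + ε) → GRHq 1 := by
    intro h
    have h2 := h 1 ![1] (fun j => by fin_cases j; exact K.one_mem) (fun j => by fin_cases j; exact one_pos) hone 1 one_pos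
    refine (grh_iff h0).2 ⟨Real.exp lam * (((I0 (lam : ℂ)).re * Rq 1 lam) ^ 1 + 1), ?_⟩
    filter_upwards [h2, eventually_gt_atTop 0] with U hU hU0
    have e : MM 1 lam U ≤ Real.exp lam * MD (fun u => Real.cos u - EE 1 u) lam ![1] U := by
      unfold MM MD
      have e2 : Real.exp lam * (1 / U * ∫ u in (0 : ℝ)..U, Real.exp (lam * ∑ j : Fin 1, (Real.cos (![1] j * u) -
          EE 1 (![1] j * u)))) = 1 / U * ∫ u in (0 : ℝ)..U, Real.exp lam * Real.exp (lam * ∑ j : Fin 1,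
          (Real.cos ((![1] : Fin 1 → ℝ) j * u) - EE 1 ((![1] : Fin 1 → ℝ) j * u))) := by
        rw [intervalIntegral.integral_const_mul]
        ring
      rw [e2]
      refine mul_le_mul_of_nonneg_left ?_ (by positivity : (0 : ℝ) ≤ 1 / U)
      refine intervalIntegral.integral_mono_on hU0.le ?_ ?_ fun u _ => ?_
      · exact (Real.continuous_exp.comp ((hcE.const_mul lam).neg)).intervalIntegrable _ _
      · refine Continuous.intervalIntegrable ?_ _ _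
        simp only [Fin.sum_univ_one, Matrix.cons_val_zero, one_mul]
        fun_prop
      · simp only [Fin.sum_univ_one, Matrix.cons_val_zero, one_mul]
        rw [← Real.exp_add]
        refine Real.exp_le_exp.2 ?_
        have h3 := Real.neg_one_le_cos u
        nlinarith
    refine e.trans (mul_le_mul_of_nonneg_left hU (Real.exp_pos _).le)
  have hconv : (∀ (m : ℕ) (θ : Fin m → ℝ), (∀ j, θ j ∈ K) → (∀ j, 0 < θ j) → LinearIndependent ℚ θ →
      Tendsto (MD (fun u => Real.cos u - EE 1 u) lam θ) atTop (𝓝 (((I0 (lam : ℂ)).re * Rq 1 lam) ^ m))) →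
      (∀ (m : ℕ) (θ : Fin m → ℝ), (∀ j, θ j ∈ K) → (∀ j, 0 < θ j) → LinearIndependent ℚ θ →
      ∀ ε : ℝ, 0 < ε → ∀ᶠ U : ℝ in atTop, MD (fun u => Real.cos u - EE 1 u) lam θ U ≤
        ((I0 (lam : ℂ)).re * Rq 1 lam) ^ m + ε) := by
    intro h m θ a b c ε hε
    filter_upwards [(h m θ a b c).eventually (gt_mem_nhds (show ((I0 (lam : ℂ)).re * Rq 1 lam) ^ m <
      ((I0 (lam : ℂ)).re * Rq 1 lam) ^ m + ε by linarith))] with U hU using le_of_lt hU
  have main : GRHq 1 → (LinearIndependent K g1 ↔ _) ∧ (LinearIndependent K g1 ↔ _) :=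
    fun hG => by
      obtain ⟨r, a, b, c, d⟩ := key hG
      exact main_abs (F := fun u => Real.cos u - EE 1 u) K hg1 hc1 (hs1 hG) h0 a b c (c1_I hG h0 h1) d
  refine ⟨⟨?_, fun h => ?_⟩, ⟨?_, fun h => ?_⟩, ?_⟩
  · rintro ⟨hG, hS, hL⟩
    have h2 := (main hG).1.1 ((LI_g1 hG K).2 ⟨hS, hL⟩)
    rw [PP_c1 hG h0 h1] at h2
    exact h2
  · have hG := hGof h
    rw [← PP_c1 hG h0 h1] at h
    exact ⟨hG, (LI_g1 hG K).1 ((main hG).1.2 h)⟩
  · rintro ⟨hG, hS, hL⟩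
    have h2 := (main hG).2.1 ((LI_g1 hG K).2 ⟨hS, hL⟩)
    rw [PP_c1 hG h0 h1] at h2
    exact h2
  · have hG := hGof (hconv h)
    rw [← PP_c1 hG h0 h1] at h
    exact ⟨hG, (LI_g1 hG K).1 ((main hG).2.2 h)⟩
  · intro hG m θ hθ
    obtain ⟨r, a, b, c, d⟩ := key hG
    have h2 := (dil (F := fun u => Real.cos u - EE 1 u) hg1 hc1 (hs1 hG) h0 a b c (c1_I hG h0 h1) d θ hθ).1
    rw [PP_c1 hG h0 h1] at h2
    exact h2

end Pool.Agent.Q253.LK
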