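import Pool.Agent.Q253.LK.K3

set_option autoImplicit false

/-! # Project LK: algebraic independence implies the linear independence of `1` and the elements over algebraic fields -/

namespace Pool.Agent.Q253.LK

open Set

theorem alg_lin {G : Set ℝ} (h : AlgebraicIndependent ℚ (fun γ : G => (γ : ℝ))) (K : Subfield ℝ)
    (hK : ∀ x ∈ K, IsAlgebraic ℚ x) : LinearIndependent K (fun x : Option G => x.elim 1 (fun γ => (γ : ℝ))) := by
  classical
  have : Algebra.IsAlgebraic ℚ K := ⟨fun x => by
    have h1 := hK x x.2
    exact (isAlgebraic_algebraMap_iff (R := ℚ) (S := K) (A := ℝ) Subtype.val_injective).1 h1⟩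
  have h1 : AlgebraicIndependent K (fun γ : G => (γ : ℝ)) := h.extendScalars K
  have h2 : LinearIndependent K (fun x : Option G => (MvPolynomial.basisMonomials G K)
      (x.elim 0 (fun γ => Finsupp.single γ 1))) := by
    refine (MvPolynomial.basisMonomials G K).linearIndependent.comp _ ?_
    intro x y hxy
    cases x with
    | none =>
      cases y with
      | none => rfl
      | some γ =>
        simp only [Option.elim_none, Option.elim_some] at hxy
        have := congrArg (fun f => f γ) hxy
        simp at this
    | some γ =>
      cases y with
      | none =>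
        simp only [Option.elim_none, Option.elim_some] at hxy
        have := congrArg (fun f => f γ) hxy
        simp at this
      | some γ' =>
        simp only [Option.elim_some] at hxy
        rw [Finsupp.single_left_injective (one_ne_zero) hxy]
  have h3 := h2.map' (MvPolynomial.aeval (fun γ : G => (γ : ℝ)) : MvPolynomial G K →ₐ[K] ℝ).toLinearMap
    (LinearMap.ker_eq_bot.2 h1)
  have e : (MvPolynomial.aeval (fun γ : G => (γ : ℝ)) : MvPolynomial G K →ₐ[K] ℝ).toLinearMap ∘
      (fun x : Option G => (MvPolynomial.basisMonomials G K) (x.elim 0 (fun γ => Finsupp.single γ 1))) =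
      fun x : Option G => x.elim 1 (fun γ => (γ : ℝ)) := by
    funext x
    cases x with
    | none => simp
    | some γ => simp [MvPolynomial.aeval_monomial]
  rw [e] at h3
  exact h3

end Pool.Agent.Q253.LK
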