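import Mathlib

set_option autoImplicit false

/-! # Project LK: algebraic independence in terms of linear independence over the rationals -/

namespace Pool.Agent.Q253.LK

open Set

/-- the family which consists of `θ` and the elements of `G` -/
noncomputable def fam (G : Set ℝ) (θ : ℝ) (x : Option G) : ℝ := x.elim θ (fun γ => (γ : ℝ))

theorem AI_of {G : Set ℝ} (hG0 : ∀ γ ∈ G, 0 < γ) (hLI : LinearIndependent ℚ (fun γ : G => (γ : ℝ))) (T : Set ℝ) (hT : T ⊆ G)
    (H : ∀ S : Finset ℝ, (S : Set ℝ) ⊂ T → ∀ θ : ℝ, 0 < θ → IsAlgebraic (IntermediateField.adjoin ℚ (S : Set ℝ)) θ →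
      θ ∉ Submodule.span ℚ (S : Set ℝ) → LinearIndependent ℚ (fam G θ)) :
    AlgebraicIndependent ℚ (fun γ : T => (γ : ℝ)) := by
  classical
  refine algebraicIndependent_of_finite' T (algebraMap ℚ ℝ).injective fun t ht hfin ind a ha hat halg => ?_
  obtain ⟨S, hS⟩ : ∃ S : Finset ℝ, (S : Set ℝ) = t := ⟨hfin.toFinset, hfin.coe_toFinset⟩
  have h1 : IsAlgebraic (IntermediateField.adjoin ℚ (S : Set ℝ)) a := by
    rw [hS]
    exact IntermediateField.isAlgebraic_adjoin_iff.2 halg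
  have h2 : a ∉ Submodule.span ℚ (S : Set ℝ) := by
    have h3 := hLI.notMem_span_image (s := {γ : G | (γ : ℝ) ∈ t}) (x := ⟨a, hT ha⟩) hat
    have e : (fun γ : G => (γ : ℝ)) '' {γ : G | (γ : ℝ) ∈ t} = t := by
      ext y
      constructor
      · rintro ⟨γ, h4, rfl⟩
        exact h4
      · intro hy
        exact ⟨⟨y, hT (ht hy)⟩, hy, rfl⟩
    rw [e] at h3
    rw [hS]
    exact h3
  have h3 := H S (by rw [hS]; exact ssubset_of_subset_of_ne ht (by rintro rfl; exact hat ha)) a (hG0 a (hT ha)) h1 h2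
  have h4 := h3.injective (a₁ := none) (a₂ := some ⟨a, hT ha⟩) rfl
  exact Option.some_ne_none _ h4.symm

theorem LI_of_AI {G : Set ℝ} (h : AlgebraicIndependent ℚ (fun γ : G => (γ : ℝ))) (S : Finset ℝ) (hS : (S : Set ℝ) ⊆ G)
    {θ : ℝ} (halg : IsAlgebraic (IntermediateField.adjoin ℚ (S : Set ℝ)) θ) (hsp : θ ∉ Submodule.span ℚ (S : Set ℝ)) :
    LinearIndependent ℚ (fam G θ) := by
  classical
  rw [linearIndependent_option]
  refine ⟨h.linearIndependent, ?_⟩
  intro hmem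
  have e0 : (fam G θ ∘ (fun x : G => (x : Option G))) = fun γ : G => (γ : ℝ) := by
    funext γ
    rfl
  have hmem' : θ ∈ Submodule.span ℚ (range fun γ : G => (γ : ℝ)) := hmem
  obtain ⟨c, hc⟩ := Finsupp.mem_span_range_iff_exists_finsupp.1 hmem'
  by_cases hall : ∀ γ ∈ c.support, (γ : ℝ) ∈ (S : Set ℝ)
  · refine hsp ?_
    rw [← hc]
    exact Submodule.sum_mem _ fun γ hγ => Submodule.smul_mem _ _ (Submodule.subset_span (hall γ hγ))
  · push Not at hall
    obtain ⟨γ₀, h1, h2⟩ := hall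
    set s : Set G := {γ | γ ≠ γ₀} with hs
    have h3 := h.transcendental_adjoin (s := s) (i := γ₀) (by simp [hs])
    apply h3
    rw [← IntermediateField.isAlgebraic_adjoin_iff]
    set F := IntermediateField.adjoin ℚ ((fun γ : G => (γ : ℝ)) '' s) with hF
    have hle : IntermediateField.adjoin ℚ (S : Set ℝ) ≤ F := by
      refine IntermediateField.adjoin.mono _ _ _ fun y hy => ?_
      refine ⟨⟨y, hS hy⟩, ?_, rfl⟩
      rw [hs, mem_setOf_eq]
      rintro rfl
      exact h2 hy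
    have hθ : IsAlgebraic F θ := by
      letI : Algebra (IntermediateField.adjoin ℚ (S : Set ℝ)) F := (IntermediateField.inclusion hle).toAlgebra
      haveI : IsScalarTower (IntermediateField.adjoin ℚ (S : Set ℝ)) F ℝ := IsScalarTower.of_algebraMap_eq fun x => rfl
      exact halg.tower_top F
    have hmF : ∀ γ : G, γ ≠ γ₀ → (γ : ℝ) ∈ F := fun γ hγ =>
      IntermediateField.subset_adjoin _ _ ⟨γ, hγ, rfl⟩
    have hsumF : ∑ γ ∈ c.support.erase γ₀, c γ • (γ : ℝ) ∈ F := by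
      refine sum_mem fun γ hγ => ?_
      rw [Algebra.smul_def]
      exact mul_mem (F.algebraMap_mem _) (hmF γ (Finset.ne_of_mem_erase hγ))
    have hc0 : (c γ₀ : ℝ) ≠ 0 := by
      exact_mod_cast Finsupp.mem_support_iff.1 h1
    have heq : (γ₀ : ℝ) = (c γ₀ : ℝ)⁻¹ * (θ - ∑ γ ∈ c.support.erase γ₀, c γ • (γ : ℝ)) := by
      have h4 : c γ₀ • (γ₀ : ℝ) + ∑ γ ∈ c.support.erase γ₀, c γ • (γ : ℝ) = θ := by
        rw [Finset.add_sum_erase _ (fun γ : G => c γ • (γ : ℝ)) h1]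
        exact hc
      rw [← h4, Rat.smul_def, add_sub_cancel_right, inv_mul_cancel_left₀ hc0]
    show IsAlgebraic F (γ₀ : ℝ)
    rw [heq]
    have h5 : IsAlgebraic F (∑ γ ∈ c.support.erase γ₀, c γ • (γ : ℝ)) := isAlgebraic_algebraMap (⟨_, hsumF⟩ : F)
    have h6 : IsAlgebraic F ((c γ₀ : ℝ)⁻¹) :=
      isAlgebraic_algebraMap (⟨(c γ₀ : ℝ)⁻¹, inv_mem (F.algebraMap_mem (c γ₀))⟩ : F)
    exact h6.mul (hθ.sub h5)

/-- algebraic independence by linear independence over `ℚ` -/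
theorem AI_iff {G : Set ℝ} (hG0 : ∀ γ ∈ G, 0 < γ) : AlgebraicIndependent ℚ (fun γ : G => (γ : ℝ)) ↔
    ∀ S : Finset ℝ, (S : Set ℝ) ⊆ G → ∀ θ : ℝ, 0 < θ → IsAlgebraic (IntermediateField.adjoin ℚ (S : Set ℝ)) θ →
      θ ∉ Submodule.span ℚ (S : Set ℝ) → LinearIndependent ℚ (fam G θ) := by
  constructor
  · intro h S hS θ _ h1 h2
    exact LI_of_AI h S hS h1 h2
  · intro H
    have h0 := H ∅ (by simp) 1 one_pos isAlgebraic_one (by simp)
    have hLI : LinearIndependent ℚ (fun γ : G => (γ : ℝ)) := (linearIndependent_option.1 h0).1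
    exact AI_of hG0 hLI G subset_rfl fun S hS θ a b c => H S hS.subset θ a b c

theorem AI_level {G : Set ℝ} (hG0 : ∀ γ ∈ G, 0 < γ) (n : ℕ)
    (H : ∀ S : Finset ℝ, (S : Set ℝ) ⊆ G → S.card < n → ∀ θ : ℝ, 0 < θ →
      IsAlgebraic (IntermediateField.adjoin ℚ (S : Set ℝ)) θ →
      θ ∉ Submodule.span ℚ (S : Set ℝ) → LinearIndependent ℚ (fam G θ)) (T : Finset ℝ) (hT : (T : Set ℝ) ⊆ G)
    (hc : T.card ≤ n) : AlgebraicIndependent ℚ (fun γ : (T : Set ℝ) => (γ : ℝ)) := by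
  rcases Nat.eq_zero_or_pos n with rfl | hn
  · have : T = ∅ := Finset.card_eq_zero.1 (by omega)
    subst this
    have : IsEmpty (((∅ : Finset ℝ) : Set ℝ)) := by simp
    exact algebraicIndependent_empty_type_iff.2 (algebraMap ℚ ℝ).injective
  have h0 := H ∅ (by simp) (by simpa using hn) 1 one_pos isAlgebraic_one (by simp)
  have hLI : LinearIndependent ℚ (fun γ : G => (γ : ℝ)) := (linearIndependent_option.1 h0).1
  refine AI_of hG0 hLI T hT fun S hS θ a b c => H S (hS.subset.trans hT) ?_ θ a b c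
  have := Finset.card_lt_card (Finset.coe_ssubset.1 hS)
  omega

end Pool.Agent.Q253.LK
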