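import Pool.Agent.Q253.LK.K3
import Pool.Agent.Q253.LK.K5

set_option autoImplicit false

/-! # Project LK: the criterion for one real number and all ordinates -/

namespace Pool.Agent.Q253.LK

open MeasureTheory Filter Topology Set Complex
open Pool.Agent.Q253.LQ
open Pool.Agent.Q253.LM (mt_one_zero)

/-- the mean -/
noncomputable def MT (lam θ U : ℝ) : ℝ := (1 / U) * ∫ u in (0 : ℝ)..U, Real.exp (lam * (Real.cos (θ * u) - EE 1 u))

noncomputable def gθ (θ : ℝ) (x : Option (Idx 1)) : ℝ := x.elim θ gi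

lemma Idx_inj (hG : GRHq 1) : Function.Injective (fun γ : Gam =>
    (⟨⟨γ, ((Gam_iff hG γ).1 γ.2).1⟩, ⟨0, Nat.pos_of_ne_zero ((Gam_iff hG γ).1 γ.2).2⟩⟩ : Idx 1)) := by
  intro γ γ' hγ
  have h3 := congrArg (fun i : Idx 1 => (i.1 : ℝ)) hγ
  exact Subtype.ext h3

lemma LI_gθ (hG : GRHq 1) (θ : ℝ) : LinearIndependent ℚ (gθ θ) ↔ (Smp ∧ LinearIndependent ℚ (fam Gam θ)) := by
  constructor
  · intro h
    have hS : ∀ γ : ℝ, 0 < γ → mt 1 γ ≤ 1 := by
      intro γ hγ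
      by_contra hcon
      have h2' : 1 < mt 1 γ := not_le.1 hcon
      have h1 := h.injective (a₁ := some (⟨⟨γ, hγ⟩, ⟨0, lt_trans zero_lt_one h2'⟩⟩ : Idx 1))
        (a₂ := some ⟨⟨γ, hγ⟩, ⟨1, h2'⟩⟩) rfl
      have h2 := congrArg (fun i : Idx 1 => (i.2 : ℕ)) (Option.some_injective _ h1)
      simp at h2
    refine ⟨(Smp_iff hG).2 hS, ?_⟩
    have h2 := h.comp (Option.map fun γ : Gam =>
      (⟨⟨γ, ((Gam_iff hG γ).1 γ.2).1⟩, ⟨0, Nat.pos_of_ne_zero ((Gam_iff hG γ).1 γ.2).2⟩⟩ : Idx 1))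
      (Option.map_injective (Idx_inj hG))
    have e : gθ θ ∘ (Option.map fun γ : Gam =>
        (⟨⟨γ, ((Gam_iff hG γ).1 γ.2).1⟩, ⟨0, Nat.pos_of_ne_zero ((Gam_iff hG γ).1 γ.2).2⟩⟩ : Idx 1)) = fam Gam θ := by
      funext x
      cases x <;> rfl
    rw [e] at h2
    exact h2
  · rintro ⟨hS, h⟩
    have hS' := (Smp_iff hG).1 hS
    have hinj : Function.Injective (fun i : Idx 1 =>
        (⟨gi i, (Gam_iff hG _).2 ⟨gi_pos i, Nat.pos_iff_ne_zero.1 i.2.pos⟩⟩ : Gam)) := by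
      intro i j hij
      have h1 : gi i = gi j := congrArg (fun γ : Gam => (γ : ℝ)) hij
      obtain ⟨γ, k⟩ := i
      obtain ⟨γ', k'⟩ := j
      have h2 : γ = γ' := Subtype.ext h1
      subst h2
      have h3 := hS' γ.1 γ.2
      have h4 := k.2
      have h5 := k'.2
      have h6 : k = k' := by
        apply Fin.ext
        omega
      rw [h6]
    have h2 := h.comp (Option.map fun i : Idx 1 =>
      (⟨gi i, (Gam_iff hG _).2 ⟨gi_pos i, Nat.pos_iff_ne_zero.1 i.2.pos⟩⟩ : Gam)) (Option.map_injective hinj)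
    have e : fam Gam θ ∘ (Option.map fun i : Idx 1 =>
        (⟨gi i, (Gam_iff hG _).2 ⟨gi_pos i, Nat.pos_iff_ne_zero.1 i.2.pos⟩⟩ : Gam)) = gθ θ := by
      funext x
      cases x <;> rfl
    rw [e] at h2
    exact h2

theorem critθ {θ : ℝ} (hθ : 0 < θ) {lam : ℝ} (h0 : 0 < lam) (h1 : lam ≤ 1 / 8) :
    ((GRHq 1 ∧ Smp ∧ LinearIndependent ℚ (fam Gam θ)) ↔
      ∀ ε : ℝ, 0 < ε → ∀ᶠ U : ℝ in atTop, MT lam θ U ≤ (I0 (lam : ℂ)).re * Rq 1 lam + ε) ∧
    ((GRHq 1 ∧ Smp ∧ LinearIndependent ℚ (fam Gam θ)) ↔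
      Tendsto (MT lam θ) atTop (𝓝 ((I0 (lam : ℂ)).re * Rq 1 lam))) ∧
    (GRHq 1 → ∀ ε : ℝ, 0 < ε → ∀ᶠ U : ℝ in atTop, (I0 (lam : ℂ)).re * Rq 1 lam - ε ≤ MT lam θ U) := by
  have hg1 : ∀ x, 0 < gθ θ x := by
    intro x
    cases x with
    | none => exact hθ
    | some i => exact gi_pos i
  have hc1 : ∀ x, 0 < c1 x := by
    intro x
    cases x with
    | none => exact one_half_pos
    | some i => exact ci_pos i
  have hs1 : GRHq 1 → Summable c1 := fun hG => (hasSum_opt (f := c1) (ci_sm hG).hasSum).summable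
  have key : GRHq 1 → ∃ r : ℝ → ℝ, Measurable r ∧ (∃ B : ℝ, ∀ u, |r u| ≤ B) ∧ Tendsto r atTop (𝓝 0) ∧
      ∀ u : ℝ, 0 ≤ u → Real.cos (θ * u) - EE 1 u =
        ∑' i : Option (Idx 1), 2 * c1 i * Real.cos (gθ θ i * u) + r u := by
    intro hG
    obtain ⟨r, a, b, c, d⟩ := rem hG
    refine ⟨r, a, b, c, fun u hu => ?_⟩
    have h2 := d u hu
    rw [mt_one_zero] at h2
    unfold AP at h2
    have h3 : Summable fun i : Idx 1 => 2 * ci i * Real.cos (gi i * u) := by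
      refine Summable.of_norm_bounded ((ci_sm hG).mul_left 2) fun i => ?_
      rw [norm_mul, Real.norm_of_nonneg (by have := ci_pos i; positivity)]
      have h1 := Real.abs_cos_le_one (gi i * u)
      rw [Real.norm_eq_abs]
      have h2 := ci_pos i
      nlinarith
    have h4 := (hasSum_opt (f := fun i : Option (Idx 1) => 2 * c1 i * Real.cos (gθ θ i * u)) h3.hasSum).tsum_eq
    rw [h4]
    have e : 2 * c1 none * Real.cos (gθ θ none * u) = Real.cos (θ * u) := by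
      unfold c1 gθ
      simp
    rw [e]
    have h5 : -EE 1 u = ∑' i : Idx 1, 2 * ci i * Real.cos (gi i * u) + r u := by
      rw [h2]
      push_cast
      ring
    linear_combination h5
  have hmain : GRHq 1 → (∀ ε : ℝ, 0 < ε → ∀ᶠ U : ℝ in atTop, (I0 (lam : ℂ)).re * Rq 1 lam - ε ≤ MT lam θ U) ∧
      (¬ LinearIndependent ℚ (gθ θ) → ∃ M : ℝ, (I0 (lam : ℂ)).re * Rq 1 lam < M ∧
        ∀ ε : ℝ, 0 < ε → ∀ᶠ U : ℝ in atTop, M - ε ≤ MT lam θ U) ∧
      (LinearIndependent ℚ (gθ θ) → Tendsto (MT lam θ) atTop (𝓝 ((I0 (lam : ℂ)).re * Rq 1 lam))) := by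
    intro hG
    obtain ⟨r, a, b, c, d⟩ := key hG
    obtain ⟨⟨M, hm1, hm2, hm3, hm4⟩, hT⟩ := Pool.Agent.Q151.LQ.t_MV (Option (Idx 1)) (gθ θ) c1 0 lam r hg1 hc1 (hs1 hG)
      h0 a b c
    have hP : Real.exp (lam * 0) * (∏' i : Option (Idx 1), (I0 ((2 * lam * c1 i : ℝ) : ℂ)).re) =
        (I0 (lam : ℂ)).re * Rq 1 lam := by
      rw [mul_zero, Real.exp_zero, one_mul]
      exact PP_c1 hG h0 h1
    rw [hP] at hm1 hm2 hm3 hT
    have hcongr : ∀ U : ℝ, 0 ≤ U → (1 / U) * ∫ u in (0 : ℝ)..U, Real.exp (lam * (0 +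
        ∑' i : Option (Idx 1), 2 * c1 i * Real.cos (gθ θ i * u) + r u)) = MT lam θ U := by
      intro U hU
      unfold MT
      congr 1
      refine intervalIntegral.integral_congr fun u hu => ?_
      rw [uIcc_of_le hU] at hu
      rw [d u hu.1, zero_add]
    refine ⟨fun ε hε => ?_, fun h => ⟨M, hm2 h, fun ε hε => ?_⟩, fun h => ?_⟩
    · filter_upwards [hm4 ε hε, eventually_ge_atTop 0] with U hU hU0
      rw [hcongr U hU0] at hU
      linarith
    · filter_upwards [hm4 ε hε, eventually_ge_atTop 0] with U hU hU0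
      rw [hcongr U hU0] at hU
      exact hU
    · refine (hT h).congr' ?_
      filter_upwards [eventually_ge_atTop 0] with U hU0
      exact hcongr U hU0
  have hcE : Continuous (EE 1) := (Pool.Agent.Q14.LQ.t_CL 1).1
  have hGof : (∀ ε : ℝ, 0 < ε → ∀ᶠ U : ℝ in atTop, MT lam θ U ≤ (I0 (lam : ℂ)).re * Rq 1 lam + ε) → GRHq 1 := by
    intro h
    refine (grh_iff h0).2 ⟨Real.exp lam * ((I0 (lam : ℂ)).re * Rq 1 lam + 1), ?_⟩
    filter_upwards [h 1 one_pos, eventually_gt_atTop 0] with U hU hU0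
    have e : MM 1 lam U ≤ Real.exp lam * MT lam θ U := by
      unfold MM MT
      have e2 : Real.exp lam * (1 / U * ∫ u in (0 : ℝ)..U, Real.exp (lam * (Real.cos (θ * u) - EE 1 u))) =
          1 / U * ∫ u in (0 : ℝ)..U, Real.exp lam * Real.exp (lam * (Real.cos (θ * u) - EE 1 u)) := by
        rw [intervalIntegral.integral_const_mul]
        ring
      rw [e2]
      refine mul_le_mul_of_nonneg_left ?_ (by positivity : (0 : ℝ) ≤ 1 / U)
      refine intervalIntegral.integral_mono_on hU0.le ?_ ?_ fun u _ => ?_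
      · exact (Real.continuous_exp.comp ((hcE.const_mul lam).neg)).intervalIntegrable _ _
      · refine Continuous.intervalIntegrable ?_ _ _
        fun_prop
      · rw [← Real.exp_add]
        refine Real.exp_le_exp.2 ?_
        have h3 := Real.neg_one_le_cos (θ * u)
        nlinarith
    exact e.trans (mul_le_mul_of_nonneg_left hU (Real.exp_pos _).le)
  have hconv : Tendsto (MT lam θ) atTop (𝓝 ((I0 (lam : ℂ)).re * Rq 1 lam)) →
      ∀ ε : ℝ, 0 < ε → ∀ᶠ U : ℝ in atTop, MT lam θ U ≤ (I0 (lam : ℂ)).re * Rq 1 lam + ε := by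
    intro h ε hε
    filter_upwards [h.eventually (gt_mem_nhds (show (I0 (lam : ℂ)).re * Rq 1 lam <
      (I0 (lam : ℂ)).re * Rq 1 lam + ε by linarith))] with U hU using le_of_lt hU
  have hback : (∀ ε : ℝ, 0 < ε → ∀ᶠ U : ℝ in atTop, MT lam θ U ≤ (I0 (lam : ℂ)).re * Rq 1 lam + ε) →
      GRHq 1 ∧ Smp ∧ LinearIndependent ℚ (fam Gam θ) := by
    intro h
    have hG := hGof h
    refine ⟨hG, (LI_gθ hG θ).1 ?_⟩
    by_contra hcon
    obtain ⟨M, hM, h4⟩ := (hmain hG).2.1 hcon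
    have hd : 0 < (M - (I0 (lam : ℂ)).re * Rq 1 lam) / 3 := by linarith
    obtain ⟨U, hU1, hU2⟩ := ((h _ hd).and (h4 _ hd)).exists
    linarith
  refine ⟨⟨fun h => ?_, hback⟩, ⟨fun h => ?_, fun h => hback (hconv h)⟩, fun hG => (hmain hG).1⟩
  · exact hconv ((hmain h.1).2.2 ((LI_gθ h.1 θ).2 h.2))
  · exact (hmain h.1).2.2 ((LI_gθ h.1 θ).2 h.2)

end Pool.Agent.Q253.LK
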