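import Pool.Agent.Q253.LK.K5

set_option autoImplicit false

/-! # Project LK: the levels of algebraic independence -/

namespace Pool.Agent.Q253.LK

open Set

/-- `θ > 0` is algebraic over `ℚ(S)` and no rational linear combination of elements of `S` -/
def Adm (S : Finset ℝ) (θ : ℝ) : Prop :=
  0 < θ ∧ IsAlgebraic (IntermediateField.adjoin ℚ (S : Set ℝ)) θ ∧ θ ∉ Submodule.span ℚ (S : Set ℝ)

/-- level `n` -/
def Lev (G : Set ℝ) (n : ℕ) : Prop := ∀ S : Finset ℝ, (S : Set ℝ) ⊆ G → S.card < n →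
  ∀ θ ∈ Submodule.span ℚ G, IsAlgebraic (IntermediateField.adjoin ℚ (S : Set ℝ)) θ → θ ∈ Submodule.span ℚ (S : Set ℝ)

lemma fam_iff (G : Set ℝ) (θ : ℝ) : LinearIndependent ℚ (fam G θ) ↔
    LinearIndependent ℚ (fun γ : G => (γ : ℝ)) ∧ θ ∉ Submodule.span ℚ G := by
  rw [linearIndependent_option]
  have e : range (fam G θ ∘ (fun x : G => (x : Option G))) = G := by
    ext y
    constructor
    · rintro ⟨γ, rfl⟩
      exact γ.2
    · intro hy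
      exact ⟨⟨y, hy⟩, rfl⟩
  have e2 : range (fam G θ ∘ some) = G := e
  constructor
  · rintro ⟨h1, h2⟩
    refine ⟨h1, fun h3 => h2 ?_⟩
    rw [e2]
    exact h3
  · rintro ⟨h1, h2⟩
    refine ⟨h1, fun h3 => h2 ?_⟩
    rw [e2] at h3
    exact h3

theorem level_iff {G : Set ℝ} {A : Prop} {P : ℝ → Prop}
    (hP : ∀ θ : ℝ, 0 < θ → (A ∧ LinearIndependent ℚ (fam G θ) ↔ P θ)) {n : ℕ} (hn : 1 ≤ n) :
    (A ∧ LinearIndependent ℚ (fun γ : G => (γ : ℝ)) ∧ Lev G n) ↔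
      ∀ S : Finset ℝ, (S : Set ℝ) ⊆ G → S.card < n → ∀ θ : ℝ, Adm S θ → P θ := by
  constructor
  · rintro ⟨hA, hL, hLev⟩ S hS hc θ ⟨h0, h1, h2⟩
    refine (hP θ h0).1 ⟨hA, (fam_iff G θ).2 ⟨hL, fun h3 => h2 (hLev S hS hc θ h3 h1)⟩⟩
  · intro h
    have h1 := (hP 1 one_pos).2 (h ∅ (by simp) (by rw [Finset.card_empty]; omega) 1 ⟨one_pos, isAlgebraic_one, by simp⟩)
    refine ⟨h1.1, ((fam_iff G 1).1 h1.2).1, fun S hS hc θ hθ halg => ?_⟩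
    by_contra hcon
    have hne : θ ≠ 0 := by
      rintro rfl
      exact hcon (Submodule.zero_mem _)
    rcases lt_or_gt_of_ne hne with h2 | h2
    · have h3 := (hP (-θ) (by linarith)).2 (h S hS hc (-θ) ⟨by linarith, halg.neg, fun h4 => hcon (by
        have := Submodule.neg_mem _ h4
        rwa [neg_neg] at this)⟩)
      exact ((fam_iff G (-θ)).1 h3.2).2 (Submodule.neg_mem _ hθ)
    · have h3 := (hP θ h2).2 (h S hS hc θ ⟨h2, halg, hcon⟩)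
      exact ((fam_iff G θ).1 h3.2).2 hθ

theorem level_AI {G : Set ℝ} (hG0 : ∀ γ ∈ G, 0 < γ) (hL : LinearIndependent ℚ (fun γ : G => (γ : ℝ))) {n : ℕ}
    (hLev : Lev G n) (T : Finset ℝ) (hT : (T : Set ℝ) ⊆ G) (hc : T.card ≤ n) :
    AlgebraicIndependent ℚ (fun γ : (T : Set ℝ) => (γ : ℝ)) :=
  AI_level hG0 n (fun S hS hc θ _ h1 h2 => (fam_iff G θ).2 ⟨hL, fun h3 => h2 (hLev S hS hc θ h3 h1)⟩) T hT hc

theorem full_iff {G : Set ℝ} (hG0 : ∀ γ ∈ G, 0 < γ) {A : Prop} {P : ℝ → Prop}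
    (hP : ∀ θ : ℝ, 0 < θ → (A ∧ LinearIndependent ℚ (fam G θ) ↔ P θ)) :
    (A ∧ AlgebraicIndependent ℚ (fun γ : G => (γ : ℝ))) ↔
      ∀ S : Finset ℝ, (S : Set ℝ) ⊆ G → ∀ θ : ℝ, Adm S θ → P θ := by
  rw [AI_iff hG0]
  constructor
  · rintro ⟨hA, h⟩ S hS θ ⟨h0, h1, h2⟩
    exact (hP θ h0).1 ⟨hA, h S hS θ h0 h1 h2⟩
  · intro h
    have h1 := (hP 1 one_pos).2 (h ∅ (by simp) 1 ⟨one_pos, isAlgebraic_one, by simp⟩)
    exact ⟨h1.1, fun S hS θ a b c => ((hP θ a).2 (h S hS θ ⟨a, b, c⟩)).2⟩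

end Pool.Agent.Q253.LK
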